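import Pool.Agent.T6.H46.RC.Pass

/-!
# Quadratic divergence of a rank one axis
-/

set_option autoImplicit false

open Metric Set Filter Topology
open Pool.Agent.TH60.FP Pool.Agent.TH60.FP.Strip Pool.Agent.Y34.HB Pool.Agent.Y34.EL
open Pool.Agent.T6.H46.RC

namespace Pool.Agent.K6.H51.RG

variable {X : Type} [MetricSpace X]

lemma chain_len {y : ℕ → X} {n : ℕ} (hst : ∀ i, i < n → dist (y i) (y (i + 1)) ≤ 1) :
    ∀ i k : ℕ, i + k ≤ n → dist (y i) (y (i + k)) ≤ k := by
  intro i k
  induction k with
  | zero => intro _; simp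
  | succ k ih =>
    intro h
    have h1 := ih (by omega)
    have h2 := hst (i + k) (by omega)
    have h3 := dist_triangle (y i) (y (i + k)) (y (i + k + 1))
    push_cast
    rw [← add_assoc]
    linarith

/-- a chain outside the ball which joins the points `c (-r)`, `c r` of an axis of a rank one
isometry has at least `κ r ^ 2` steps -/
theorem quad [ProperSpace X] {c : ℝ → X} {τ R D : ℝ} (h : Pass c τ R D) :
    ∃ κ r₀ : ℝ, 0 < κ ∧ ∀ r : ℝ, r₀ ≤ r → ∀ (n : ℕ) (y : ℕ → X), y 0 = c (-r) → y n = c r →
      (∀ i, i ≤ n → r ≤ dist (c 0) (y i)) → (∀ i, i < n → dist (y i) (y (i + 1)) ≤ 1) →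
      κ * r ^ 2 ≤ n := by
  obtain ⟨hc, hτ, hR, hD, hp⟩ := h
  set B : ℝ := 2 * D + τ with hB
  have hB0 : 0 < B := by positivity
  refine ⟨1 / (16 * B), max (2 * B) (max 8 (4 * R + 1)), by positivity, ?_⟩
  intro r hr n y h0 hn hout hst
  have hr1 : 2 * B ≤ r := le_trans (le_max_left _ _) hr
  have hr2 : 8 ≤ r := le_trans (le_trans (le_max_left _ _) (le_max_right _ _)) hr
  have hr3 : 4 * R + 1 ≤ r := le_trans (le_trans (le_max_right _ _) (le_max_right _ _)) hr
  set M : ℕ := ⌊r / 4⌋₊ with hM
  have hM1 : (M : ℝ) ≤ r / 4 := Nat.floor_le (by linarith)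
  have hM2 : r / 4 < M + 1 := Nat.lt_floor_add_one _
  choose s hs using fun i => exists_pj hc (y i)
  have hlen := chain_len hst
  have hend : ∀ (i : ℕ) (u : ℝ), y i = c u → s i = u := by
    intro i u hu
    have h1 := hs i u
    rw [hu, dist_self, hc.dist_eq, Real.dist_eq] at h1
    have h2 := abs_nonpos_iff.1 h1
    linarith
  by_contra hcon
  push Not at hcon
  have key : ∀ j : ℕ, (j : ℝ) * B ≤ r → s (min (j * M) n) ≤ -(r / 2) + j * B := by
    intro j
    induction j with
    | zero =>
      intro _
      have h1 : s 0 = -r := hend 0 _ h0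
      simp only [zero_mul, Nat.zero_min, h1, Nat.cast_zero, add_zero]
      linarith
    | succ j ih =>
      intro hj
      push_cast at hj ⊢
      have hjB : (j : ℝ) * B ≤ r := by nlinarith
      have ih' := ih hjB
      set e : ℕ := min (j * M) n with he
      set e' : ℕ := min ((j + 1) * M) n with he'
      have hee : e ≤ e' := min_le_min_right _ (Nat.mul_le_mul_right _ (Nat.le_succ j))
      have hen : e' ≤ n := min_le_right _ _
      have heM : e' ≤ e + M := by
        rw [he, he', Nat.add_mul, one_mul]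
        omega
      by_contra hlt
      push Not at hlt
      set a : ℝ := -(r / 2) + j * B + D with ha
      set i : ℤ := ⌈a / τ⌉ with hi
      have hi1 : a ≤ i * τ := by
        rw [← div_le_iff₀ hτ]
        exact Int.le_ceil _
      have hi2 : (i : ℝ) * τ < a + τ := by
        have h1 : (i : ℝ) < a / τ + 1 := Int.ceil_lt_add_one _
        have h2 : (i : ℝ) * τ < (a / τ + 1) * τ := mul_lt_mul_of_pos_right h1 hτ
        have h3 : (a / τ + 1) * τ = a + τ := by field_simp
        linarith
      obtain ⟨m, hm1, hm2⟩ := hp (y e) (y e') (s e) (s e') i (hs e) (hs e') (by linarith)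
        (by linarith)
      have hj0 : (0 : ℝ) ≤ (j : ℝ) * B := by positivity
      have habs : |(i : ℝ) * τ| ≤ r / 2 := by
        rw [abs_le]
        constructor <;> linarith
      have h1 : dist (c 0) (c (i * τ)) ≤ r / 2 := by
        rw [hc.dist_eq, Real.dist_eq, zero_sub, abs_neg]
        exact habs
      have h2 := hout e (hee.trans hen)
      have h3 := dist_triangle (c 0) (c (i * τ)) (y e)
      have h4 := dist_triangle (c (i * τ)) m (y e)
      have h5 : dist (y e) (y e') ≤ M := by
        have h6 := hlen e (e' - e) (by omega)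
        rw [Nat.add_sub_cancel' hee] at h6
        have h7 : ((e' - e : ℕ) : ℝ) ≤ M := by exact_mod_cast (by omega)
        linarith
      have h6 := dist_nonneg (x := m) (y := y e')
      rw [dist_comm m (y e)] at h4
      linarith
  have hj1 := Nat.floor_le (show 0 ≤ r / B by positivity)
  have hj2 := Nat.lt_floor_add_one (r / B)
  set j : ℕ := ⌊r / B⌋₊ with hj
  have hjB : (j : ℝ) * B ≤ r := by rwa [← le_div_iff₀ hB0]
  have hrB : 2 ≤ r / B := by rwa [le_div_iff₀ hB0]
  have hnj : (n : ℝ) ≤ ((j * M : ℕ) : ℝ) := by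
    push_cast
    have h1 : r / B / 2 ≤ j := by linarith
    have h2 : r / 8 ≤ M := by linarith
    have h3 : r / B / 2 * (r / 8) ≤ j * M := mul_le_mul h1 h2 (by linarith) (by positivity)
    have h4 : r / B / 2 * (r / 8) = 1 / (16 * B) * r ^ 2 := by field_simp; norm_num
    linarith
  have hmin : min (j * M) n = n := min_eq_right (by exact_mod_cast hnj)
  have h1 := key j hjB
  rw [hmin, hend n r hn] at h1
  linarith

end Pool.Agent.K6.H51.RG
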